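import Pool.Agent.helper96.DP.API
import Pool.Agent.helper95.DP.Fin

/-!
# Stability of the pair measure under small noise (project dp, part B, module BSTAB)
-/

namespace DP

open MeasureTheory

/-- `Piv {v} F` depends only on the sites on which `F` depends. -/
theorem BSTAB_dep {Λ : Finset V} {F : Set (V → Bool)} (h : Dep F (Λ : Set V)) (v : V) :
    Dep (Piv {v} F) (Λ : Set V) := by
  have key : ∀ b b' : V → Bool, (∀ u ∈ (Λ : Set V), b u = b' u) → b ∈ Piv {v} F →
      b' ∈ Piv {v} F := by
    rintro b b' hb ⟨c, c', hc, hcF, hcF'⟩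
    refine ⟨Function.update b' v (c v), Function.update b' v (c' v), ?_, ?_, ?_⟩
    · intro u hu
      have huv : u ≠ v := fun e => hu (by rw [e]; exact Set.mem_singleton v)
      exact ⟨Function.update_of_ne huv _ _, Function.update_of_ne huv _ _⟩
    · refine (h c _ fun u hu => ?_).1 hcF
      by_cases huv : u = v
      · subst huv; simp
      · rw [Function.update_of_ne huv, ← hb u hu]
        exact (hc u (fun e => huv (Set.mem_singleton_iff.1 e))).1
    · intro hF
      refine hcF' ((h c' _ fun u hu => ?_).2 hF)
      by_cases huv : u = v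
      · subst huv; simp
      · rw [Function.update_of_ne huv, ← hb u hu]
        exact (hc u (fun e => huv (Set.mem_singleton_iff.1 e))).2
  intro b b' hb
  exact ⟨key b b' hb, key b' b fun u hu => (hb u hu).symm⟩

/-- The discrete derivative of an indicator is at most one. -/
theorem BSTAB_abs_le_one (F : Set (V → Bool)) (v : V) (b : V → Bool) :
    |dv v (ind F) b| ≤ 1 := by
  have h1 := ind_nonneg F (Function.update b v true)
  have h2 := ind_le_one F (Function.update b v true)
  have h3 := ind_nonneg F (Function.update b v false)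
  have h4 := ind_le_one F (Function.update b v false)
  show |ind F (Function.update b v true) - ind F (Function.update b v false)| ≤ 1
  rw [abs_le]
  constructor <;> linarith

/-- The discrete derivative of an indicator vanishes off the pivotal event. -/
theorem BSTAB_abs_le (F : Set (V → Bool)) (v : V) (b : V → Bool) :
    |dv v (ind F) b| ≤ ind (Piv {v} F) b := by
  by_cases hb : b ∈ Piv {v} F
  · rw [ind_of_mem hb]
    exact BSTAB_abs_le_one F v b
  · have h1 : ∀ a a' : Bool, Function.update b v a ∈ F → Function.update b v a' ∈ F := by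
      intro a a' ha
      by_contra ha'
      refine hb ⟨Function.update b v a, Function.update b v a', fun u hu => ?_, ha, ha'⟩
      have huv : u ≠ v := fun e => hu (by rw [e]; exact Set.mem_singleton v)
      exact ⟨Function.update_of_ne huv _ _, Function.update_of_ne huv _ _⟩
    have h2 : dv v (ind F) b = 0 := by
      show ind F (Function.update b v true) - ind F (Function.update b v false) = 0
      by_cases h : Function.update b v true ∈ F
      · rw [ind_of_mem h, ind_of_mem (h1 _ _ h)]; ring
      · rw [ind_of_notMem h, ind_of_notMem fun h' => h (h1 _ _ h')]; ring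
    rw [h2, abs_zero]
    exact ind_nonneg _ _

theorem BSTAB_bf_le {Λ : Finset V} {F : Set (V → Bool)} (h : Dep F (Λ : Set V)) (ρ : V → ℝ)
    (v : V) : bf ρ (dv v (ind F)) (dv v (ind F)) ≤ Pr (Piv {v} F) := by
  classical
  have hd := BSTAB_dep h v
  have h1 : LF Λ (dv v (ind F)) := (h.lf.dv' v).mono (Finset.erase_subset _ _)
  rw [Pr_eq hd, ← ex2_fst ρ hd.lf]
  unfold bf
  refine ex2_mono ρ (lf_pair h1 h1) hd.lf.fst fun w => ?_
  have e1 := BSTAB_abs_le F v (fun u => (w u).1)
  have e2 := BSTAB_abs_le_one F v (fun u => (w u).2)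
  calc dv v (ind F) (fun u => (w u).1) * dv v (ind F) (fun u => (w u).2)
      ≤ |dv v (ind F) (fun u => (w u).1) * dv v (ind F) (fun u => (w u).2)| := le_abs_self _
    _ = |dv v (ind F) (fun u => (w u).1)| * |dv v (ind F) (fun u => (w u).2)| := abs_mul _ _
    _ ≤ |dv v (ind F) (fun u => (w u).1)| * 1 :=
        mul_le_mul_of_nonneg_left e2 (abs_nonneg _)
    _ ≤ ind (Piv {v} F) (fun u => (w u).1) := by rw [mul_one]; exact e1

/-- Stability: small noise on `L` only. -/
theorem Bstab (hz : Bzero_stmt) : Bstab_stmt := by
  classical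
  intro L F A ρ s hF hs0 hs1
  obtain ⟨Λ, hΛA, hdep⟩ := hF
  induction L using Finset.induction_on generalizing ρ with
  | empty =>
    intro _ h0
    have h1 := hz ρ F F A ⟨Λ, hΛA, hdep⟩ ⟨Λ, hΛA, hdep⟩ fun v _ => h0 v (Finset.notMem_empty v)
    rw [h1, Set.inter_self, Finset.sum_empty, mul_zero, sub_zero]
  | insert v L hv ih =>
    intro hL h0
    have h1 := ih (Function.update ρ v 0)
      (fun u hu => by
        have huv : u ≠ v := fun e => hv (by rw [← e]; exact hu)
        rw [Function.update_of_ne huv]
        exact hL u (Finset.mem_insert_of_mem hu))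
      (fun u hu => by
        by_cases huv : u = v
        · subst huv; simp
        · rw [Function.update_of_ne huv]
          exact h0 u fun h => (Finset.mem_insert.1 h).elim huv hu)
    rw [Q_eq _ hdep hdep] at h1 ⊢
    have h2 := bf_diff ρ hdep.lf hdep.lf v 0
    have h3 := BSTAB_bf_le hdep ρ v
    have h4 : 0 ≤ Pr (Piv {v} F) := measureReal_nonneg
    rw [hL v (Finset.mem_insert_self v L), clip_of_mem le_rfl zero_le_one,
      clip_of_mem hs0 hs1] at h2
    rw [Finset.sum_insert hv]
    nlinarith [mul_le_mul_of_nonneg_left h3 hs0, mul_nonneg hs0 h4]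

end DP
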